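import Mathlib

set_option autoImplicit false

/-!
If the lower central quotients of a group `Γ` are isomorphic to those of a free group `F` (of any
rank, finite or infinite, the isomorphisms being unrelated to each other), then they are so through
one homomorphism `F → Γ`.

Idea: lift a basis of `Γ / C²Γ`. The induced endomorphism of the free nilpotent group `F / CʲF` is
onto, hence it splits, and the splitting is again an isomorphism on abelianizations, hence onto.
-/

namespace Pool.Agent.Results.MP_b9ac25_al.FreeTypeInduced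

open scoped commutatorElement

universe u v

/-- The term `C^{j+1} G` of the lower central series of `G`, so `lcs G 0 = G` and
`lcs G (j + 1) = [lcs G j, G]`. -/
abbrev lcs (G : Type u) [Group G] (j : ℕ) : Subgroup G := (⊤ : Subgroup G).lowerCentralSeries j

lemma lcs_le_comap {G : Type u} {H : Type v} [Group G] [Group H] (φ : G →* H) (j : ℕ) :
    lcs G j ≤ (lcs H j).comap φ := by
  rw [← Subgroup.map_le_iff_le_comap, Subgroup.map_lowerCentralSeries]
  exact Subgroup.lowerCentralSeries_mono j le_top

/-- The homomorphism `G / C^{j+1} G → H / C^{j+1} H` induced by `φ : G → H`. -/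
def induced {G : Type u} {H : Type v} [Group G] [Group H] (φ : G →* H) (j : ℕ) :
    G ⧸ lcs G j →* H ⧸ lcs H j :=
  QuotientGroup.map _ _ φ (lcs_le_comap φ j)

@[simp] lemma induced_mk {G : Type u} {H : Type v} [Group G] [Group H] (φ : G →* H) (j : ℕ)
    (x : G) : induced φ j (QuotientGroup.mk x) = QuotientGroup.mk (φ x) := rfl

/-- In a nilpotent group a subgroup that together with the commutator subgroup generates the group
is the whole group. -/
lemma eq_top_of_sup_commutator {N : Type u} [Group N] [Group.IsNilpotent N] (H : Subgroup N)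
    (h : H ⊔ commutator N = ⊤) : H = ⊤ := by
  have key : ∀ i, H ⊔ Subgroup.upperCentralSeries N (i + 1) = ⊤ →
      H ⊔ Subgroup.upperCentralSeries N i = ⊤ := by
    intro i hi
    have hle : commutator N ≤ H ⊔ Subgroup.upperCentralSeries N i := by
      rw [commutator_def, Subgroup.commutator_le]
      intro a _ b _
      have ha : a ∈ H ⊔ Subgroup.upperCentralSeries N (i + 1) := by rw [hi]; trivial
      have hb : b ∈ H ⊔ Subgroup.upperCentralSeries N (i + 1) := by rw [hi]; trivial
      obtain ⟨x, hx, z, hz, rfl⟩ := Subgroup.mem_sup_of_normal_right.mp ha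
      obtain ⟨y, hy, w, hw, rfl⟩ := Subgroup.mem_sup_of_normal_right.mp hb
      have hcz : ∀ n : N, ⁅z, n⁆ ∈ Subgroup.upperCentralSeries N i := fun n =>
        Subgroup.mem_upperCentralSeries_succ_iff.mp hz n
      have hcw : ∀ n : N, ⁅w, n⁆ ∈ Subgroup.upperCentralSeries N i := fun n =>
        Subgroup.mem_upperCentralSeries_succ_iff.mp hw n
      -- work modulo `Z i`
      have e1 : (QuotientGroup.mk (⁅x * z, y * w⁆) : N ⧸ Subgroup.upperCentralSeries N i) =
          QuotientGroup.mk ⁅x, y⁆ := by
        have hz' : ∀ q : N ⧸ Subgroup.upperCentralSeries N i, Commute (QuotientGroup.mk z) q := by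
          intro q
          induction q using QuotientGroup.induction_on with
          | H n =>
            rw [← commutatorElement_eq_one_iff_commute]
            have := hcz n
            rw [← QuotientGroup.eq_one_iff] at this
            exact this
        have hw' : ∀ q : N ⧸ Subgroup.upperCentralSeries N i, Commute (QuotientGroup.mk w) q := by
          intro q
          induction q using QuotientGroup.induction_on with
          | H n =>
            rw [← commutatorElement_eq_one_iff_commute]
            have := hcw n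
            rw [← QuotientGroup.eq_one_iff] at this
            exact this
        have e2 : (QuotientGroup.mk (⁅x * z, y * w⁆) : N ⧸ Subgroup.upperCentralSeries N i) =
            ⁅(QuotientGroup.mk x * QuotientGroup.mk z : N ⧸ Subgroup.upperCentralSeries N i),
              QuotientGroup.mk y * QuotientGroup.mk w⁆ := rfl
        have e3 : (QuotientGroup.mk (⁅x, y⁆) : N ⧸ Subgroup.upperCentralSeries N i) =
            ⁅(QuotientGroup.mk x : N ⧸ Subgroup.upperCentralSeries N i), QuotientGroup.mk y⁆ := rfl
        rw [e2, e3]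
        generalize (QuotientGroup.mk x : N ⧸ Subgroup.upperCentralSeries N i) = X at *
        generalize (QuotientGroup.mk y : N ⧸ Subgroup.upperCentralSeries N i) = Y at *
        generalize (QuotientGroup.mk z : N ⧸ Subgroup.upperCentralSeries N i) = Z at *
        generalize (QuotientGroup.mk w : N ⧸ Subgroup.upperCentralSeries N i) = W at *
        simp only [commutatorElement_def, mul_inv_rev]
        calc X * Z * (Y * W) * (Z⁻¹ * X⁻¹) * (W⁻¹ * Y⁻¹)
            = X * (Z * (Y * W)) * Z⁻¹ * X⁻¹ * W⁻¹ * Y⁻¹ := by group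
          _ = X * ((Y * W) * Z) * Z⁻¹ * X⁻¹ * W⁻¹ * Y⁻¹ := by rw [(hz' (Y * W)).eq]
          _ = X * Y * (W * X⁻¹) * W⁻¹ * Y⁻¹ := by group
          _ = X * Y * (X⁻¹ * W) * W⁻¹ * Y⁻¹ := by rw [(hw' X⁻¹).eq]
          _ = X * Y * X⁻¹ * Y⁻¹ := by group
      rw [QuotientGroup.eq] at e1
      have e4 : ⁅x, y⁆ ∈ H := by
        rw [commutatorElement_def]
        exact H.mul_mem (H.mul_mem (H.mul_mem hx hy) (H.inv_mem hx)) (H.inv_mem hy)
      have e5 : ⁅x * z, y * w⁆ = ⁅x, y⁆ * (⁅x * z, y * w⁆⁻¹ * ⁅x, y⁆)⁻¹ := by group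
      rw [e5]
      exact Subgroup.mul_mem_sup e4 (Subgroup.inv_mem _ e1)
    rw [eq_top_iff, ← h]
    exact sup_le le_sup_left hle
  have hall : ∀ k, H ⊔ Subgroup.upperCentralSeries N (Group.nilpotencyClass N - k) = ⊤ := by
    intro k
    induction k with
    | zero => simp [Subgroup.upperCentralSeries_nilpotencyClass]
    | succ k ih =>
      by_cases hk : Group.nilpotencyClass N - k = 0
      · have : Group.nilpotencyClass N - (k + 1) = Group.nilpotencyClass N - k := by omega
        rw [this]; exact ih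
      · have : Group.nilpotencyClass N - k = (Group.nilpotencyClass N - (k + 1)) + 1 := by omega
        rw [this] at ih
        exact key _ ih
  have := hall (Group.nilpotencyClass N)
  simpa using this

instance isNilpotent_quotient_lcs (G : Type u) [Group G] (j : ℕ) :
    Group.IsNilpotent (G ⧸ lcs G j) := by
  rw [Subgroup.nilpotent_iff_lowerCentralSeries]
  refine ⟨j, ?_⟩
  have h1 : (⊤ : Subgroup (G ⧸ lcs G j)) = (⊤ : Subgroup G).map (QuotientGroup.mk' (lcs G j)) := by
    rw [← MonoidHom.range_eq_map, eq_comm, MonoidHom.range_eq_top]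
    exact QuotientGroup.mk'_surjective _
  rw [h1, ← Subgroup.map_lowerCentralSeries, Subgroup.map_eq_bot_iff, QuotientGroup.ker_mk']

/-- For every group `Γ` and every free group `F`, of any rank: if `Γ / C^j Γ ≅ F / C^j F` for all
`j ≥ 1`, then some homomorphism `F → Γ` induces isomorphisms `F / C^j F → Γ / C^j Γ` for all
`j ≥ 1`. -/
theorem result {Γ : Type u} [Group Γ] {F : Type v} [Group F] [IsFreeGroup F]
    (h : ∀ j : ℕ, Nonempty (Γ ⧸ lcs Γ j ≃* F ⧸ lcs F j)) :
    ∃ φ : F →* Γ, ∀ j : ℕ, Function.Bijective (induced φ j) := by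
  classical
  obtain ⟨e⟩ := h 1
  -- lift the basis
  have hlift : ∀ x : IsFreeGroup.Generators F, ∃ γ : Γ,
      (QuotientGroup.mk γ : Γ ⧸ lcs Γ 1) = e.symm (QuotientGroup.mk (IsFreeGroup.of x)) := fun x =>
    QuotientGroup.mk_surjective _
  choose γ hγ using hlift
  let φ : F →* Γ := IsFreeGroup.lift γ
  have hφ : ∀ x, φ (IsFreeGroup.of x) = γ x := fun x => IsFreeGroup.lift_of γ x
  have h1 : induced φ 1 = e.symm.toMonoidHom := by
    apply QuotientGroup.monoidHom_ext
    apply IsFreeGroup.ext_hom
    intro x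
    change (QuotientGroup.mk (φ (IsFreeGroup.of x)) : Γ ⧸ lcs Γ 1) = _
    rw [hφ, hγ]; rfl
  have hφ1 : Function.Bijective (induced φ 1) := by
    rw [h1]; exact e.symm.bijective
  -- the consequences in degree one
  have hs1 : ∀ g : Γ, ∃ f : F, (φ f)⁻¹ * g ∈ lcs Γ 1 := by
    intro g
    obtain ⟨q, hq⟩ := hφ1.2 (QuotientGroup.mk g)
    obtain ⟨f, rfl⟩ := QuotientGroup.mk_surjective q
    exact ⟨f, QuotientGroup.eq.mp hq⟩
  have hi1 : ∀ f : F, φ f ∈ lcs Γ 1 → f ∈ lcs F 1 := by
    intro f hf
    rw [← QuotientGroup.eq_one_iff] at hf ⊢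
    apply hφ1.1
    rw [map_one]; exact hf
  have hcomm : ∀ (G : Type v) [Group G], lcs G 1 = commutator G := fun G _ =>
    Subgroup.top_lowerCentralSeries_one
  have hcomm' : lcs Γ 1 = commutator Γ := Subgroup.top_lowerCentralSeries_one
  refine ⟨φ, fun j => ?_⟩
  rcases Nat.eq_zero_or_pos j with rfl | hj
  · have hsub1 : Subsingleton (F ⧸ lcs F 0) := QuotientGroup.subsingleton_quotient_top
    have hsub2 : Subsingleton (Γ ⧸ lcs Γ 0) := QuotientGroup.subsingleton_quotient_top
    exact ⟨Function.injective_of_subsingleton _, fun y => ⟨1, Subsingleton.elim _ _⟩⟩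
  -- surjectivity
  have hsurj : Function.Surjective (induced φ j) := by
    rw [← MonoidHom.range_eq_top]
    apply eq_top_of_sup_commutator
    rw [eq_top_iff]
    rintro q -
    obtain ⟨g, rfl⟩ := QuotientGroup.mk_surjective q
    obtain ⟨f, hf⟩ := hs1 g
    have e1 : (QuotientGroup.mk g : Γ ⧸ lcs Γ j) =
        induced φ j (QuotientGroup.mk f) * QuotientGroup.mk ((φ f)⁻¹ * g) := by
      rw [induced_mk, ← QuotientGroup.mk_mul]; congr 1; group
    rw [e1]
    refine Subgroup.mul_mem_sup ⟨_, rfl⟩ ?_
    rw [hcomm'] at hf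
    have : (commutator Γ).map (QuotientGroup.mk' (lcs Γ j)) ≤ commutator (Γ ⧸ lcs Γ j) := by
      rw [commutator_def, Subgroup.map_commutator, commutator_def]
      exact Subgroup.commutator_mono le_top le_top
    exact this ⟨_, hf, rfl⟩
  refine ⟨?_, hsurj⟩
  -- injectivity
  obtain ⟨ψ⟩ := h j
  let θ : (F ⧸ lcs F j) →* (F ⧸ lcs F j) := ψ.toMonoidHom.comp (induced φ j)
  have hθs : Function.Surjective θ := ψ.surjective.comp hsurj
  have hθc : ∀ m : F ⧸ lcs F j, θ m ∈ commutator (F ⧸ lcs F j) →
      m ∈ commutator (F ⧸ lcs F j) := by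
    intro m hm
    obtain ⟨f, rfl⟩ := QuotientGroup.mk_surjective m
    -- pull back along `ψ`
    have h2 : (QuotientGroup.mk (φ f) : Γ ⧸ lcs Γ j) ∈ commutator (Γ ⧸ lcs Γ j) := by
      have h3 : ψ.symm.toMonoidHom (θ (QuotientGroup.mk f)) ∈
          (commutator (F ⧸ lcs F j)).map ψ.symm.toMonoidHom := ⟨_, hm, rfl⟩
      have h4 : (commutator (F ⧸ lcs F j)).map ψ.symm.toMonoidHom ≤ commutator (Γ ⧸ lcs Γ j) := by
        rw [commutator_def, Subgroup.map_commutator, commutator_def]
        exact Subgroup.commutator_mono le_top le_top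
      have h5 := h4 h3
      have h6 : ψ.symm.toMonoidHom (θ (QuotientGroup.mk f)) = QuotientGroup.mk (φ f) := by
        change ψ.symm (ψ (induced φ j (QuotientGroup.mk f))) = _
        rw [ψ.symm_apply_apply]; rfl
      rwa [h6] at h5
    have h7 : commutator (Γ ⧸ lcs Γ j) = (commutator Γ).map (QuotientGroup.mk' (lcs Γ j)) := by
      rw [commutator_def, commutator_def, Subgroup.map_commutator, ← MonoidHom.range_eq_map,
        MonoidHom.range_eq_top.mpr (QuotientGroup.mk'_surjective _)]
    rw [h7] at h2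
    obtain ⟨c, hc, hce⟩ := h2
    have h8 : φ f ∈ lcs Γ 1 := by
      have h9 : c⁻¹ * φ f ∈ lcs Γ j := QuotientGroup.eq.mp hce
      have h10 : lcs Γ j ≤ lcs Γ 1 := Subgroup.lowerCentralSeries_antitone _ hj
      have h11 : φ f = c * (c⁻¹ * φ f) := by group
      rw [h11]
      refine Subgroup.mul_mem _ ?_ (h10 h9)
      rw [hcomm']; exact hc
    have h12 := hi1 f h8
    rw [hcomm F] at h12
    have : (commutator F).map (QuotientGroup.mk' (lcs F j)) ≤ commutator (F ⧸ lcs F j) := by
      rw [commutator_def, Subgroup.map_commutator, commutator_def]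
      exact Subgroup.commutator_mono le_top le_top
    exact this ⟨_, h12, rfl⟩
  -- a splitting of `θ`
  have hsec : ∀ x : IsFreeGroup.Generators F, ∃ f : F,
      θ (QuotientGroup.mk f) = QuotientGroup.mk (IsFreeGroup.of x) := by
    intro x
    obtain ⟨q, hq⟩ := hθs (QuotientGroup.mk (IsFreeGroup.of x))
    obtain ⟨f, rfl⟩ := QuotientGroup.mk_surjective q
    exact ⟨f, hq⟩
  choose s hs using hsec
  let σ₀ : F →* F := IsFreeGroup.lift s
  let σ : (F ⧸ lcs F j) →* (F ⧸ lcs F j) := induced σ₀ j
  have hθσ : θ.comp σ = MonoidHom.id _ := by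
    apply QuotientGroup.monoidHom_ext
    apply IsFreeGroup.ext_hom
    intro x
    change θ (QuotientGroup.mk (σ₀ (IsFreeGroup.of x))) = QuotientGroup.mk (IsFreeGroup.of x)
    rw [show σ₀ (IsFreeGroup.of x) = s x from IsFreeGroup.lift_of s x, hs]
  have hθσ' : ∀ m, θ (σ m) = m := fun m => DFunLike.congr_fun hθσ m
  have hσ : Function.Surjective σ := by
    rw [← MonoidHom.range_eq_top]
    apply eq_top_of_sup_commutator
    rw [eq_top_iff]
    rintro n -
    have h2 : (σ (θ n))⁻¹ * n ∈ commutator (F ⧸ lcs F j) := by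
      apply hθc
      rw [map_mul, map_inv, hθσ', inv_mul_cancel]
      exact Subgroup.one_mem _
    have h3 : n = σ (θ n) * ((σ (θ n))⁻¹ * n) := by group
    rw [h3]
    exact Subgroup.mul_mem_sup ⟨_, rfl⟩ h2
  have hθi : Function.Injective θ := by
    intro a b hab
    obtain ⟨a', rfl⟩ := hσ a
    obtain ⟨b', rfl⟩ := hσ b
    rw [hθσ', hθσ'] at hab
    rw [hab]
  intro a b hab
  exact hθi (congrArg ψ hab)

end Pool.Agent.Results.MP_b9ac25_al.FreeTypeInduced
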